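import Pool.Agent.Helper15.HS.GoalsC

/-! # HS, packet CLG: the Chern–Lu identity, general form -/

open Complex Metric Set Filter Topology MeasureTheory
open scoped ContDiff ComplexConjugate ComplexOrder Manifold Matrix

namespace Pool.Agent.Helper87.HS

open Pool.Agent.Helper95.Lin Pool.Agent.Helper16.Abund Pool.Agent.Helper92.Orb
  Pool.Agent.Helper10.SP Pool.Agent.Helper95.RK Pool.Agent.Helper57.HS Pool.Agent.Helper15.HS

theorem cd_congr {n : ℕ} {f g : Cn n → ℂ} {x : Cn n} (h : f =ᶠ[𝓝 x] g) (l : Fin n) :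
    cd l f x = cd l g x := by
  simp only [cd, h.fderiv_eq]

theorem cdb_congr {n : ℕ} {f g : Cn n → ℂ} {x : Cn n} (h : f =ᶠ[𝓝 x] g) (l : Fin n) :
    cdb l f x = cdb l g x := by
  simp only [cdb, h.fderiv_eq]

theorem cdM_congr {n m : ℕ} {X Y : Cn n → Matrix (Fin m) (Fin m) ℂ} {x : Cn n}
    (h : X =ᶠ[𝓝 x] Y) (l : Fin n) : cdM l X x = cdM l Y x := by
  ext i j
  exact cd_congr (h.mono fun y hy => by rw [hy]) l

theorem cdbM_congr {n m : ℕ} {X Y : Cn n → Matrix (Fin m) (Fin m) ℂ} {x : Cn n}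
    (h : X =ᶠ[𝓝 x] Y) (l : Fin n) : cdbM l X x = cdbM l Y x := by
  ext i j
  exact cdb_congr (h.mono fun y hy => by rw [hy]) l

theorem eqOn_nhds {n : ℕ} {E : Type*} {W : Set (Cn n)} (hW : IsOpen W) {x : Cn n} (hx : x ∈ W)
    {f g : Cn n → E} (h : ∀ y ∈ W, f y = g y) : f =ᶠ[𝓝 x] g :=
  Filter.mem_of_superset (hW.mem_nhds hx) h

/-- The trace and the derivatives. -/
theorem tr_smooth {n m : ℕ} {W : Set (Cn n)} {X : Cn n → Matrix (Fin m) (Fin m) ℂ}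
    (hX : ∀ i j, ContDiffOn ℝ ∞ (fun x => X x i j) W) :
    ContDiffOn ℝ ∞ (fun x => Matrix.trace (X x)) W := by
  have : (fun x => Matrix.trace (X x)) = fun x => ∑ i, X x i i := by
    funext x; rfl
  rw [this]
  exact ContDiffOn.sum fun i _ => hX i i

theorem diffAt {n : ℕ} {W : Set (Cn n)} (hW : IsOpen W) {f : Cn n → ℂ}
    (hf : ContDiffOn ℝ ∞ f W) {x : Cn n} (hx : x ∈ W) : DifferentiableAt ℝ f x :=
  (hf.differentiableOn (by simp)).differentiableAt (hW.mem_nhds hx)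

theorem cd_sum' {n : ℕ} {ι : Type*} {W : Set (Cn n)} (hW : IsOpen W) (s : Finset ι)
    {f : ι → Cn n → ℂ} (hf : ∀ i ∈ s, ContDiffOn ℝ ∞ (f i) W) {x : Cn n} (hx : x ∈ W)
    (l : Fin n) : cd l (fun y => ∑ i ∈ s, f i y) x = ∑ i ∈ s, cd l (f i) x := by
  have h : fderiv ℝ (fun y => ∑ i ∈ s, f i y) x = ∑ i ∈ s, fderiv ℝ (f i) x :=
    fderiv_fun_sum fun i hi => diffAt hW (hf i hi) hx
  simp only [cd, h, ContinuousLinearMap.sum_apply, Finset.mul_sum, Finset.sum_sub_distrib]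

theorem cdb_sum' {n : ℕ} {ι : Type*} {W : Set (Cn n)} (hW : IsOpen W) (s : Finset ι)
    {f : ι → Cn n → ℂ} (hf : ∀ i ∈ s, ContDiffOn ℝ ∞ (f i) W) {x : Cn n} (hx : x ∈ W)
    (l : Fin n) : cdb l (fun y => ∑ i ∈ s, f i y) x = ∑ i ∈ s, cdb l (f i) x := by
  have h : fderiv ℝ (fun y => ∑ i ∈ s, f i y) x = ∑ i ∈ s, fderiv ℝ (f i) x :=
    fderiv_fun_sum fun i hi => diffAt hW (hf i hi) hx
  simp only [cdb, h, ContinuousLinearMap.sum_apply, Finset.mul_sum, Finset.sum_add_distrib]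

theorem cd_tr {n m : ℕ} {W : Set (Cn n)} (hW : IsOpen W) {X : Cn n → Matrix (Fin m) (Fin m) ℂ}
    (hX : ∀ i j, ContDiffOn ℝ ∞ (fun x => X x i j) W) {x : Cn n} (hx : x ∈ W) (l : Fin n) :
    cd l (fun y => Matrix.trace (X y)) x = Matrix.trace (cdM l X x) := by
  have : (fun y => Matrix.trace (X y)) = fun y => ∑ i, X y i i := by funext y; rfl
  rw [this, cd_sum' hW _ (fun i _ => hX i i) hx]
  rfl

theorem cdb_tr {n m : ℕ} {W : Set (Cn n)} (hW : IsOpen W) {X : Cn n → Matrix (Fin m) (Fin m) ℂ}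
    (hX : ∀ i j, ContDiffOn ℝ ∞ (fun x => X x i j) W) {x : Cn n} (hx : x ∈ W) (l : Fin n) :
    cdb l (fun y => Matrix.trace (X y)) x = Matrix.trace (cdbM l X x) := by
  have : (fun y => Matrix.trace (X y)) = fun y => ∑ i, X y i i := by funext y; rfl
  rw [this, cdb_sum' hW _ (fun i _ => hX i i) hx]
  rfl

theorem cdbM_sub {n m : ℕ} {W : Set (Cn n)} (hW : IsOpen W)
    {X Y : Cn n → Matrix (Fin m) (Fin m) ℂ}
    (hX : ∀ i j, ContDiffOn ℝ ∞ (fun x => X x i j) W)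
    (hY : ∀ i j, ContDiffOn ℝ ∞ (fun x => Y x i j) W) {x : Cn n} (hx : x ∈ W) (l : Fin n) :
    cdbM l (fun y => X y - Y y) x = cdbM l X x - cdbM l Y x := by
  ext i j
  simp only [cdbM, Matrix.of_apply, Matrix.sub_apply, cdb]
  rw [fderiv_fun_sub (diffAt hW (hX i j) hx) (diffAt hW (hY i j) hx)]
  simp only [ContinuousLinearMap.sub_apply]
  ring

theorem cdbM_neg {n m : ℕ} (X : Cn n → Matrix (Fin m) (Fin m) ℂ) (x : Cn n) (l : Fin n) :
    cdbM l (fun y => - X y) x = - cdbM l X x := by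
  ext i j
  simp only [cdbM, Matrix.of_apply, Matrix.neg_apply, cdb]
  rw [fderiv_fun_neg]
  simp only [ContinuousLinearMap.neg_apply]
  ring

theorem clg (hW : S_WIRT) (hM : S_MCAL) (hC : S_CSY) : S_CLG := by
  intro n W hWo Q Y η Γ hQ hpos hrho hYs hYh hΓs hY x hx
  have hQs := hQ.smooth
  have hdet : ∀ x ∈ W, (Q x).det ≠ 0 := fun x hx => (hpos x hx).det_pos.ne'
  have hQi1 : ∀ x ∈ W, Q x * (Q x)⁻¹ = 1 := fun x hx =>
    Matrix.mul_nonsing_inv _ ((Matrix.isUnit_iff_isUnit_det _).2 (isUnit_iff_ne_zero.2 (hdet x hx)) |> fun h => (Matrix.isUnit_iff_isUnit_det _).1 h)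
  have hQi2 : ∀ x ∈ W, (Q x)⁻¹ * Q x = 1 := fun x hx =>
    Matrix.nonsing_inv_mul _ (isUnit_iff_ne_zero.2 (hdet x hx))
  obtain ⟨hQd, -, hQm, hQinv, -⟩ := hM W hWo Q Q hQs hQs
  obtain ⟨hKs, hKd⟩ := hQinv hdet
  obtain ⟨hYd, hYKs, hYKm, -, -⟩ := hM W hWo Y (fun y => (Q y)⁻¹) hYs hKs
  -- the derivatives of `Y` and `Q`
  have hYb : ∀ x ∈ W, ∀ l, cdbM l Y x = Y x * (Γ l x)ᴴ := by
    intro x hx l
    have h1 := (hYKm x hx l).2.2.1
    have h2 : cdM l (fun y => (Y y)ᴴ) x = cdM l Y x :=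
      cdM_congr (eqOn_nhds hWo hx fun y hy => (hYh y hy).eq) l
    rw [h2, hY x hx l] at h1
    have h3 := congrArg Matrix.conjTranspose h1
    rw [Matrix.conjTranspose_conjTranspose, Matrix.conjTranspose_mul, (hYh x hx).eq] at h3
    exact h3.symm
  have hGam : ∀ x ∈ W, ∀ l, cdM l Q x = Gam Q l x * Q x := by
    intro x hx l
    rw [Gam, Matrix.mul_assoc, hQi2 x hx, Matrix.mul_one]
  have hQb : ∀ x ∈ W, ∀ l, cdbM l Q x = Q x * (Gam Q l x)ᴴ := by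
    intro x hx l
    have h1 := (hQm x hx l).2.2.1
    have h2 : cdM l (fun y => (Q y)ᴴ) x = cdM l Q x :=
      cdM_congr (eqOn_nhds hWo hx fun y hy => (hQ.herm y hy).eq) l
    rw [h2, hGam x hx l] at h1
    have h3 := congrArg Matrix.conjTranspose h1
    rw [Matrix.conjTranspose_conjTranspose, Matrix.conjTranspose_mul, (hQ.herm x hx).eq] at h3
    exact h3.symm
  have g1 : ∀ x ∈ W, ∀ k, cdM k (fun y => Y y * (Q y)⁻¹) x =
      Γ k x * (Y x * (Q x)⁻¹) - Y x * (Q x)⁻¹ * Gam Q k x := by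
    intro x hx k
    rw [(hYKm x hx k).1, (hKd x hx k).1, hY x hx k, Gam]
    simp only [Matrix.mul_neg, Matrix.mul_assoc, sub_eq_add_neg]
  have g2 : ∀ x ∈ W, ∀ l, cdbM l (fun y => Y y * (Q y)⁻¹) x =
      - (Y x * (Gam Q l x - Γ l x)ᴴ * (Q x)⁻¹) := by
    intro x hx l
    rw [(hYKm x hx l).2.1, (hKd x hx l).2, hYb x hx l, hQb x hx l]
    have h1 : (Q x)⁻¹ * (Q x * (Gam Q l x)ᴴ) = (Gam Q l x)ᴴ := by
      rw [← Matrix.mul_assoc, hQi2 x hx, Matrix.one_mul]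
    rw [h1, Matrix.conjTranspose_sub]
    simp only [Matrix.mul_neg, Matrix.mul_sub, Matrix.sub_mul, Matrix.mul_assoc]
    abel
  have hsm : ContDiffOn ℝ ∞ (fun y => (Matrix.trace (Y y * (Q y)⁻¹)).re) W :=
    Complex.reCLM.contDiff.comp_contDiffOn (tr_smooth hYKs)
  refine ⟨g1 x hx, g2 x hx, hsm, ?_⟩
  -- reality of the trace
  have hre : ∀ y ∈ W, (((Matrix.trace (Y y * (Q y)⁻¹)).re : ℝ) : ℂ) =
      Matrix.trace (Y y * (Q y)⁻¹) := by
    intro y hy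
    rw [← Complex.conj_eq_iff_re]
    have h1 : conj (Matrix.trace (Y y * (Q y)⁻¹)) = Matrix.trace ((Y y * (Q y)⁻¹)ᴴ) := by
      rw [Matrix.trace_conjTranspose]; rfl
    rw [h1, Matrix.conjTranspose_mul, (hYh y hy).eq, Matrix.conjTranspose_nonsing_inv,
      (hQ.herm y hy).eq, Matrix.trace_mul_comm]
  -- the connection is smooth
  have hGs : ∀ k i j, ContDiffOn ℝ ∞ (fun x => Gam Q k x i j) W := by
    intro k
    exact (hM W hWo (cdM k Q) (fun y => (Q y)⁻¹) (fun i j => (hQd k i j).1) hKs).2.1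
  set F : Cn n → ℂ := fun y => Matrix.trace (Y y * (Q y)⁻¹) with hF
  have hFs : ContDiffOn ℝ ∞ F W := tr_smooth hYKs
  -- first derivative of `F`
  have hF1 : ∀ y ∈ W, ∀ k, cd k F y =
      Matrix.trace ((Γ k y - Gam Q k y) * (Y y * (Q y)⁻¹)) := by
    intro y hy k
    rw [hF, cd_tr hWo hYKs hy, g1 y hy k, Matrix.trace_sub, Matrix.sub_mul, Matrix.trace_sub]
    congr 1
    rw [Matrix.trace_mul_comm]
  have hAs : ∀ k i j, ContDiffOn ℝ ∞ (fun x => (Γ k x - Gam Q k x) i j) W := by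
    intro k i j
    exact (hΓs k i j).sub (hGs k i j)
  have hLM : ∀ k l, LM (fun y => (Matrix.trace (Y y * (Q y)⁻¹)).re) x k l =
      - Matrix.trace (cdbM l (Gam Q k) x * (Y x * (Q x)⁻¹)) +
      Matrix.trace (cdbM l (Γ k) x * (Y x * (Q x)⁻¹)) +
      Matrix.trace ((Gam Q k x - Γ k x) * (Y x * (Gam Q l x - Γ l x)ᴴ * (Q x)⁻¹)) := by
    intro k l
    have h0 : ∀ y ∈ W, cdb l (fun z => (((Matrix.trace (Y z * (Q z)⁻¹)).re : ℝ) : ℂ)) y =
        cdb l F y := fun y hy => cdb_congr (eqOn_nhds hWo hy hre) l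
    have h1 : LM (fun y => (Matrix.trace (Y y * (Q y)⁻¹)).re) x k l = cd k (cdb l F) x := by
      simp only [LM, Matrix.of_apply]
      exact cd_congr (eqOn_nhds hWo hx h0) k
    rw [h1, ((hW W hWo F F hFs hFs).2.2.2.2.1 k l x hx).2.2]
    have h2 : cdb l (cd k F) x =
        cdb l (fun y => Matrix.trace ((Γ k y - Gam Q k y) * (Y y * (Q y)⁻¹))) x :=
      cdb_congr (eqOn_nhds hWo hx fun y hy => hF1 y hy k) l
    obtain ⟨-, hPs, hPm, -, -⟩ := hM W hWo (fun y => Γ k y - Gam Q k y)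
      (fun y => Y y * (Q y)⁻¹) (hAs k) hYKs
    rw [h2, cdb_tr hWo hPs hx, (hPm x hx l).2.1, g2 x hx l,
      cdbM_sub hWo (hΓs k) (hGs k) hx l]
    simp only [Matrix.trace_add, Matrix.sub_mul, Matrix.mul_neg, Matrix.trace_neg,
      Matrix.trace_sub]
    ring
  -- the sum over the curvature
  have hcurv : ∑ k, ∑ l, (Q x)⁻¹ l k • (- cdbM l (Gam Q k) x) = - (rho Q x * (Q x)⁻¹) := by
    have h1 : (∑ k, ∑ l, (Q x)⁻¹ l k • (- cdbM l (Gam Q k) x)) * Q x = - rho Q x := by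
      ext i j
      obtain ⟨c1, -, c3⟩ := hC W hWo Q hpos hQs x hx
      have c4 := (c3 hQ).2 i j
      rw [Matrix.neg_apply, ← c4]
      simp only [Finset.sum_mul, Matrix.sum_apply, Matrix.smul_mul, Matrix.smul_apply,
        Matrix.neg_mul, Matrix.neg_apply, c1, smul_eq_mul]
    calc ∑ k, ∑ l, (Q x)⁻¹ l k • (- cdbM l (Gam Q k) x)
        = (∑ k, ∑ l, (Q x)⁻¹ l k • (- cdbM l (Gam Q k) x)) * Q x * (Q x)⁻¹ := by
          rw [Matrix.mul_assoc, hQi1 x hx, Matrix.mul_one]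
      _ = _ := by rw [h1, Matrix.neg_mul]
  have htr : trL Q (fun y => (Matrix.trace (Y y * (Q y)⁻¹)).re) x =
      ∑ k, ∑ l, (Q x)⁻¹ l k * LM (fun y => (Matrix.trace (Y y * (Q y)⁻¹)).re) x k l := by
    rw [trL, Matrix.trace]
    simp only [Matrix.diag_apply, Matrix.mul_apply]
    rw [Finset.sum_comm]
  rw [htr]
  simp only [hLM]
  have hfirst : ∑ k, ∑ l, (Q x)⁻¹ l k * (- Matrix.trace (cdbM l (Gam Q k) x *
      (Y x * (Q x)⁻¹))) = - Matrix.trace (Y x * (Q x)⁻¹) +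
      Matrix.trace (η x * (Q x)⁻¹ * Y x * (Q x)⁻¹) := by
    have h1 : ∑ k, ∑ l, (Q x)⁻¹ l k * (- Matrix.trace (cdbM l (Gam Q k) x *
      (Y x * (Q x)⁻¹))) = Matrix.trace ((∑ k, ∑ l, (Q x)⁻¹ l k • (- cdbM l (Gam Q k) x)) *
        (Y x * (Q x)⁻¹)) := by
      simp only [Finset.sum_mul, Matrix.trace_sum, Matrix.smul_mul, Matrix.trace_smul,
        Matrix.neg_mul, Matrix.trace_neg, smul_eq_mul]
    rw [h1, hcurv, hrho x hx]
    simp only [Matrix.neg_mul, Matrix.trace_neg, Matrix.sub_mul, Matrix.trace_sub, hQi1 x hx,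
      Matrix.one_mul, Matrix.mul_assoc]
    ring
  rw [← hfirst]
  simp only [← Finset.sum_add_distrib]
  refine Finset.sum_congr rfl fun k _ => Finset.sum_congr rfl fun l _ => ?_
  simp only [Matrix.mul_assoc]
  ring

end Pool.Agent.Helper87.HS
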