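import Pool.Agent.Helper95.HS.GoalsB
import Pool.Agent.Helper15.HS.GoalsC
import Pool.Agent.Helper87.HS.CLG

/-! # HS, packet DENS: the upper bound of densities -/

open Complex Metric Set Filter Topology MeasureTheory
open scoped ContDiff ComplexConjugate ComplexOrder Manifold Matrix

namespace Pool.Agent.Helper87.HS

universe u

open Pool.Agent.Helper95.Lin Pool.Agent.Helper16.Abund Pool.Agent.Helper92.Orb
  Pool.Agent.Helper10.SP Pool.Agent.Helper95.RK Pool.Agent.Helper57.HS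

theorem hermi_nonneg {n : ℕ} {A : Matrix (Fin n) (Fin n) ℂ} (hA : A.PosSemidef) (e : Fin n → ℂ) :
    0 ≤ (hermi A e e).re := by
  have h := hA.dotProduct_mulVec_nonneg (fun j => conj (e j))
  have h2 : star (fun j => conj (e j)) ⬝ᵥ A *ᵥ (fun j => conj (e j)) = hermi A e e := by
    simp only [hermi, dotProduct, Matrix.mulVec, Pi.star_apply, Finset.mul_sum]
    refine Finset.sum_congr rfl fun j _ => Finset.sum_congr rfl fun k _ => ?_
    have : star (conj (e j)) = e j := Complex.conj_conj _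
    rw [this]
    ring
  rw [h2] at h
  exact (Complex.le_def.1 h).1

theorem hermi_add {n : ℕ} (A B : Matrix (Fin n) (Fin n) ℂ) (u v : Fin n → ℂ) :
    hermi (A + B) u v = hermi A u v + hermi B u v := by
  simp only [hermi, Matrix.add_apply, ← Finset.sum_add_distrib]
  refine Finset.sum_congr rfl fun j _ => Finset.sum_congr rfl fun k _ => ?_
  ring

theorem hermi_smul {n : ℕ} (c : ℂ) (A : Matrix (Fin n) (Fin n) ℂ) (u v : Fin n → ℂ) :
    hermi (c • A) u v = c * hermi A u v := by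
  simp only [hermi, Matrix.smul_apply, smul_eq_mul, Finset.mul_sum]
  refine Finset.sum_congr rfl fun j _ => Finset.sum_congr rfl fun k _ => ?_
  ring

theorem hermi_norm_le {n : ℕ} {A : Matrix (Fin n) (Fin n) ℂ} {M : ℝ} (hM : 0 ≤ M)
    (hA : ∀ i j, ‖A i j‖ ≤ M) (e : Fin n → ℂ) : ‖hermi A e e‖ ≤ (n : ℝ) * n * M * ‖e‖ ^ 2 := by
  have h1 : ∀ i j, ‖A i j * e i * conj (e j)‖ ≤ M * ‖e‖ ^ 2 := by
    intro i j
    rw [norm_mul, norm_mul, RCLike.norm_conj]
    have h2 := hA i j
    have h3 := norm_le_pi_norm e i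
    have h4 := norm_le_pi_norm e j
    calc ‖A i j‖ * ‖e i‖ * ‖e j‖ ≤ M * ‖e‖ * ‖e‖ := by gcongr
      _ = _ := by ring
  calc ‖hermi A e e‖ ≤ ∑ i, ∑ j, ‖A i j * e i * conj (e j)‖ := by
        refine (norm_sum_le _ _).trans (Finset.sum_le_sum fun i _ => norm_sum_le _ _)
    _ ≤ ∑ _i : Fin n, ∑ _j : Fin n, M * ‖e‖ ^ 2 :=
        Finset.sum_le_sum fun i _ => Finset.sum_le_sum fun j _ => h1 i j
    _ = _ := by simp; ring

theorem dens (hLM : S_LMF) (hD : S_DETI.{u}) (hKP : Pool.Agent.Helper95.HS.S_KETP.{u})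
    (hLo : Pool.Agent.Helper15.HS.S_LOCB.{u}) (hSu : Pool.Agent.Helper15.HS.S_SUBM) :
    Pool.Agent.Helper95.HS.S_DENS.{u} := by
  intro n T G _ R H hH κ hκ a
  have hTo : IsOpen T := hH.et.isOpen
  obtain ⟨C, hCT, hC, hcov⟩ := hH.et.coc
  obtain ⟨δ, hδ, hδT⟩ := hC.exists_cthickening_subset_open hTo hCT
  set C' := cthickening δ C with hC'
  have hC'c : IsCompact C' := hC.cthickening
  -- bound for the entries of `H`
  have hM : ∃ M : ℝ, 0 ≤ M ∧ ∀ x ∈ C', ∀ i j, ‖H x i j‖ ≤ M := by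
    have h1 : ∀ i j, ∃ M : ℝ, ∀ x ∈ C', ‖H x i j‖ ≤ M := fun i j =>
      hC'c.exists_bound_of_continuousOn ((hH.smooth i j).continuousOn.mono hδT)
    choose M hM using h1
    refine ⟨∑ i, ∑ j, |M i j|, Finset.sum_nonneg fun i _ => Finset.sum_nonneg fun j _ =>
      abs_nonneg _, fun x hx i j => ?_⟩
    calc ‖H x i j‖ ≤ |M i j| := (hM i j x hx).trans (le_abs_self _)
      _ ≤ ∑ j, |M i j| :=
        Finset.single_le_sum (f := fun j => |M i j|) (fun j _ => abs_nonneg _) (Finset.mem_univ j)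
      _ ≤ _ := Finset.single_le_sum (f := fun i => ∑ j, |M i j|)
        (fun i _ => Finset.sum_nonneg fun j _ => abs_nonneg _) (Finset.mem_univ i)
  obtain ⟨M, hM0, hM⟩ := hM
  obtain ⟨B₁, hB₁, hsub⟩ := hSu n (δ / 4) (|a| * ((n : ℝ) * n * M)) (by positivity) (by positivity)
  obtain ⟨B₂, hB₂, hloc⟩ := hLo T R H hH κ hκ C' hδT hC'c
  obtain ⟨d1, d2, -⟩ := hD T R H hH
  refine ⟨B₁ * B₂, by positivity, fun Q hQ hpos => ?_⟩
  obtain ⟨q1, q2, -⟩ := hD T R Q hQ
  obtain ⟨-, hk2, -⟩ := hKP T R hH.et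
  obtain ⟨hinv, -, -⟩ := hk2 H Q hH hQ
  set w : Cn n → ℝ := fun x => ld Q x - ld H x with hw
  have hws : ContDiffOn ℝ ∞ w T := hinv.1
  have hexp : ∀ x ∈ T, Real.exp (w x) * (H x).det.re = (Q x).det.re := by
    intro x hx
    simp only [hw, ld]
    rw [Real.exp_sub, Real.exp_log (q1 x hx).2.1, Real.exp_log (d1 x hx).2.1]
    field_simp [(d1 x hx).2.1.ne']
  -- Levi form
  have hlev : ∀ y ∈ C', ∀ e, -(|a| * ((n : ℝ) * n * M)) * ‖e‖ ^ 2 ≤ lev w y e := by
    intro y hy e
    have hyT := hδT hy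
    have h1 := hermi_nonneg (hpos y hyT) e
    rw [hermi_add, hermi_smul, Complex.add_re, Complex.re_ofReal_mul] at h1
    have h2 : (hermi (LM w y) e e).re = lev w y e := by
      rw [← ((hLM T hTo w hws).2.2.1 y hyT e), Complex.ofReal_re]
    have h3 : (hermi (LM (fun y => ld Q y - ld H y) y) e e).re = lev w y e := h2
    rw [h3] at h1
    have h4 : |a * (hermi (H y) e e).re| ≤ |a| * ((n : ℝ) * n * M * ‖e‖ ^ 2) := by
      rw [abs_mul]
      apply mul_le_mul_of_nonneg_left _ (abs_nonneg a)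
      exact (Complex.abs_re_le_norm _).trans (hermi_norm_le hM0 (hM y hy) e)
    have h5 := abs_le.1 h4
    nlinarith [h5.2]
  have hvol : ∫ x in T, κ x * (H x).det.re * Real.exp (w x) =
      Pool.Agent.Helper95.HS.vol T κ Q := by
    unfold Pool.Agent.Helper95.HS.vol
    apply setIntegral_congr_fun hTo.measurableSet
    intro x hx
    simp only
    rw [← hexp x hx]
    ring
  have hwc : ContinuousOn (fun x => Real.exp (w x)) T :=
    Real.continuous_exp.comp_continuousOn hws.continuousOn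
  have hloc' := hloc (fun x => Real.exp (w x)) hwc (fun x _ => (Real.exp_pos _).le)
    (fun γ x y hxy => by simp only [hinv.2 γ x y hxy])
  rw [hvol] at hloc'
  have hintC' : IntegrableOn (fun x => Real.exp (w x)) C' :=
    (hwc.mono hδT).integrableOn_compact hC'c
  -- the bound on `C`
  have hbC : ∀ x ∈ C, Real.exp (w x) ≤ B₁ * B₂ * Pool.Agent.Helper95.HS.vol T κ Q := by
    intro x hx
    have hb : ball x (2 * (δ / 4)) ⊆ C' := by
      intro y hy
      apply mem_cthickening_of_dist_le y x δ C hx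
      rw [mem_ball] at hy
      linarith
    have hcb : closedBall x (δ / 4) ⊆ C' := by
      intro y hy
      apply mem_cthickening_of_dist_le y x δ C hx
      rw [mem_closedBall] at hy
      linarith
    have h1 := hsub x w (hws.mono (hb.trans hδT)) (fun y hy e => hlev y (hb hy) e)
    have h2 : ∫ y in closedBall x (δ / 4), Real.exp (w y) ≤ ∫ y in C', Real.exp (w y) := by
      apply setIntegral_mono_set hintC'
      · filter_upwards with y using (Real.exp_pos _).le
      · exact hcb.eventuallyLE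
    calc Real.exp (w x) ≤ B₁ * ∫ y in closedBall x (δ / 4), Real.exp (w y) := h1
      _ ≤ B₁ * (B₂ * Pool.Agent.Helper95.HS.vol T κ Q) := by
        apply mul_le_mul_of_nonneg_left (h2.trans hloc') hB₁.le
      _ = _ := by ring
  intro x hx
  obtain ⟨γ, y, hy, hxy⟩ := hcov x hx
  have h1 := hbC y hy
  have h2 : w y = w x := hinv.2 γ x y hxy
  rw [h2] at h1
  rw [← hexp x hx]
  exact mul_le_mul_of_nonneg_right h1 (d1 x hx).2.1.le

end Pool.Agent.Helper87.HS
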