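import Pool.Agent.Helper95.HS.GoalsB

/-! # HS, packet ALGS: the algebra of the splitting -/

open Complex Metric Set Filter Topology MeasureTheory
open scoped ContDiff ComplexConjugate ComplexOrder Manifold Matrix

namespace Pool.Agent.Helper87.HS

theorem posDef_factor {n : ℕ} {Y : Matrix (Fin n) (Fin n) ℂ} (hY : Y.PosDef) :
    ∃ B : Matrix (Fin n) (Fin n) ℂ, Y = Bᴴ * B ∧ IsUnit B.det := by
  open scoped MatrixOrder in
  obtain ⟨B, hB⟩ := CStarAlgebra.nonneg_iff_eq_star_mul_self.mp hY.posSemidef.nonneg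
  refine ⟨B, hB, ?_⟩
  have h1 := hY.det_pos.ne'
  rw [hB, Matrix.det_mul] at h1
  exact isUnit_iff_ne_zero.2 (right_ne_zero_of_mul h1)

theorem algs : Pool.Agent.Helper95.HS.S_ALGS := by
  intro n H Q P hH hQ hPP hPH ε
  obtain ⟨C, hC, hCu⟩ := posDef_factor hH
  obtain ⟨B, hB, hBu⟩ := posDef_factor hH.inv
  have hHu : IsUnit H.det := isUnit_iff_ne_zero.2 hH.det_pos.ne'
  have hQu : IsUnit Q.det := isUnit_iff_ne_zero.2 hQ.det_pos.ne'
  have hH1 : H * H⁻¹ = 1 := Matrix.mul_nonsing_inv _ hHu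
  have hH2 : H⁻¹ * H = 1 := Matrix.nonsing_inv_mul _ hHu
  have hQ1 : Q * Q⁻¹ = 1 := Matrix.mul_nonsing_inv _ hQu
  have hQ2 : Q⁻¹ * Q = 1 := Matrix.nonsing_inv_mul _ hQu
  have hHh : Hᴴ = H := hH.isHermitian.eq
  have hQh : (Q⁻¹)ᴴ = Q⁻¹ := hQ.inv.isHermitian.eq
  have hPi : Pᴴ * H⁻¹ = H⁻¹ * P := by
    have h1 : H⁻¹ * (P * H) * H⁻¹ = H⁻¹ * (H * Pᴴ) * H⁻¹ := by rw [hPH]
    rw [← Matrix.mul_assoc H⁻¹ P H, Matrix.mul_assoc (H⁻¹ * P) H H⁻¹, hH1, Matrix.mul_one,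
      ← Matrix.mul_assoc H⁻¹ H, hH2, Matrix.one_mul] at h1
    exact h1.symm
  set D : Matrix (Fin n) (Fin n) ℂ := P - (ε : ℂ) • (P * H * Q⁻¹) with hD
  have hDh : Dᴴ = Pᴴ - (ε : ℂ) • (Q⁻¹ * H * Pᴴ) := by
    rw [hD, Matrix.conjTranspose_sub, Matrix.conjTranspose_smul, Matrix.conjTranspose_mul,
      Matrix.conjTranspose_mul, hHh, hQh]
    congr 2
    · exact Complex.conj_ofReal ε
    · rw [Matrix.mul_assoc]
  -- cyclic identities
  have c1 : Matrix.trace (P * H * (Pᴴ * H⁻¹)) = Matrix.trace P := by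
    rw [hPi, Matrix.mul_assoc, ← Matrix.mul_assoc H, hH1, Matrix.one_mul, hPP]
  have c2 : Matrix.trace (P * H * Q⁻¹ * H * (Pᴴ * H⁻¹)) = Matrix.trace (P * H * Q⁻¹) := by
    rw [hPi]
    have : P * H * Q⁻¹ * H * (H⁻¹ * P) = P * H * Q⁻¹ * P := by
      rw [Matrix.mul_assoc (P * H * Q⁻¹) H, ← Matrix.mul_assoc H, hH1, Matrix.one_mul]
    rw [this, Matrix.trace_mul_comm, ← Matrix.mul_assoc, ← Matrix.mul_assoc, hPP]
  have c3 : Matrix.trace (P * H * Q⁻¹ * H * Q⁻¹ * H * (Pᴴ * H⁻¹)) =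
      Matrix.trace (H * Q⁻¹ * (P * H) * Q⁻¹) := by
    rw [hPi]
    have : P * H * Q⁻¹ * H * Q⁻¹ * H * (H⁻¹ * P) = P * H * Q⁻¹ * H * Q⁻¹ * P := by
      rw [Matrix.mul_assoc (P * H * Q⁻¹ * H * Q⁻¹) H, ← Matrix.mul_assoc H, hH1, Matrix.one_mul]
    rw [this, Matrix.trace_mul_comm]
    have h2 : P * (P * H * Q⁻¹ * H * Q⁻¹) = (P * H * Q⁻¹) * (H * Q⁻¹) := by
      simp only [← Matrix.mul_assoc, hPP]
    rw [h2, Matrix.trace_mul_comm]
    simp only [Matrix.mul_assoc]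
  have htr : Matrix.trace (D * H * Dᴴ * H⁻¹) = Matrix.trace P -
      2 * ((ε : ℂ) * Matrix.trace (P * H * Q⁻¹)) +
      (ε : ℂ) ^ 2 * Matrix.trace (H * Q⁻¹ * (P * H) * Q⁻¹) := by
    rw [← c3, ← c2, ← c1, hDh, hD]
    simp only [Matrix.sub_mul, Matrix.mul_sub, Matrix.smul_mul, Matrix.mul_smul,
      Matrix.trace_sub, Matrix.trace_smul, smul_eq_mul, smul_sub, smul_smul, Matrix.mul_assoc]
    ring
  set M : Matrix (Fin n) (Fin n) ℂ := B * D * Cᴴ with hM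
  have hMM : Matrix.trace (M * Mᴴ) = Matrix.trace (D * H * Dᴴ * H⁻¹) := by
    rw [hM, Matrix.conjTranspose_mul, Matrix.conjTranspose_mul, Matrix.conjTranspose_conjTranspose,
      hB]
    rw [hC]
    rw [← Matrix.mul_assoc (D * (Cᴴ * C) * Dᴴ) Bᴴ B, Matrix.trace_mul_comm _ B]
    simp only [Matrix.mul_assoc]
  have hre : (Matrix.trace (M * Mᴴ)).re = (Matrix.trace P).re -
      2 * (ε * (Matrix.trace (P * H * Q⁻¹)).re) +
      ε ^ 2 * (Matrix.trace (H * Q⁻¹ * (P * H) * Q⁻¹)).re := by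
    have e2 : (ε : ℂ) ^ 2 = ((ε ^ 2 : ℝ) : ℂ) := by push_cast; rfl
    have e3 : (2 : ℂ) * ((ε : ℂ) * Matrix.trace (P * H * Q⁻¹)) =
        ((2 * ε : ℝ) : ℂ) * Matrix.trace (P * H * Q⁻¹) := by push_cast; ring
    rw [hMM, htr, e2, e3, Complex.add_re, Complex.sub_re, Complex.re_ofReal_mul,
      Complex.re_ofReal_mul]
    ring
  have hps : (M * Mᴴ).PosSemidef := Matrix.posSemidef_self_mul_conjTranspose M
  have hnn := Complex.le_def.1 hps.trace_nonneg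
  refine ⟨hre ▸ hnn.1, fun h0 => ?_⟩
  rw [← hre] at h0
  have h1 : Matrix.trace (M * Mᴴ) = 0 := by
    apply Complex.ext
    · rw [h0]; rfl
    · exact hnn.2.symm
  have h2 : M = 0 := Matrix.trace_mul_conjTranspose_self_eq_zero_iff.1 h1
  have hCu' : IsUnit (Cᴴ).det := by
    rw [Matrix.det_conjTranspose]
    exact hCu.star
  have h3 : D = 0 := by
    have e1 : B⁻¹ * M * (Cᴴ)⁻¹ = D := by
      rw [hM, Matrix.mul_assoc, Matrix.mul_assoc (B * D), Matrix.mul_nonsing_inv _ hCu',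
        Matrix.mul_one, ← Matrix.mul_assoc, Matrix.nonsing_inv_mul _ hBu, Matrix.one_mul]
    rw [← e1, h2]
    simp
  have h4 : P = (ε : ℂ) • (P * H * Q⁻¹) := sub_eq_zero.1 h3
  calc P * Q = (ε : ℂ) • (P * H * Q⁻¹) * Q := by rw [← h4]
    _ = (ε : ℂ) • (P * H) := by
      rw [Matrix.smul_mul, Matrix.mul_assoc (P * H), hQ2, Matrix.mul_one]

end Pool.Agent.Helper87.HS
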