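import Pool.Agent.Helper95.HS.GoalsA

/-! # HS, packet LP1: `L^p` bound for nonnegative superharmonic functions in the disc -/

open Complex Metric Set Filter Topology MeasureTheory
open scoped ContDiff ComplexConjugate ComplexOrder Manifold Matrix

namespace Pool.Agent.Helper87.HS

open Pool.Agent.Helper95.HS

theorem lp1_aux {p : ℕ} {K I : ℝ} {a : ℝ} (ha : 0 ≤ a)
    (h : ∀ m : ℝ, 0 < m → a ≤ m → I ≤ K * m ^ p) : I ≤ K * a ^ p := by
  have hc : Continuous (fun m : ℝ => K * m ^ p) := by fun_prop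
  have ht : Tendsto (fun t : ℝ => K * (a + t) ^ p) (𝓝[>] 0) (𝓝 (K * (a + 0) ^ p)) := by
    apply Tendsto.mono_left _ nhdsWithin_le_nhds
    have : Continuous (fun t : ℝ => K * (a + t) ^ p) := by fun_prop
    exact this.tendsto 0
  rw [add_zero] at ht
  refine ge_of_tendsto ht ?_
  filter_upwards [self_mem_nhdsWithin] with t ht
  have ht' : (0 : ℝ) < t := ht
  exact h (a + t) (by linarith) (by linarith)

theorem lp1 (h1 : S_SOB2) (h2 : S_ENG1) : S_LP1 := by
  intro p hp
  obtain ⟨C, hC, hS⟩ := h1 p hp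
  obtain ⟨D, hD, hE⟩ := h2
  refine ⟨C * D ^ (2 * p), by positivity, ?_⟩
  intro U w hU hUb hw hw0 hlap
  have h0U : (0 : ℂ) ∈ U := hUb (mem_closedBall_self (by norm_num))
  refine lp1_aux (hw0 0 h0U) ?_
  intro m hm hwm
  obtain ⟨f, hf, hf0, hwf, hen⟩ := hE U w hU hUb hw hw0 hlap m hm hwm
  have hcs : HasCompactSupport f := by
    apply HasCompactSupport.of_support_subset_isCompact (isCompact_closedBall (0 : ℂ) 2)
    intro z hz
    by_contra hz'
    apply hz
    exact hf0 z (fun hb => hz' (ball_subset_closedBall hb))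
  have hint : Integrable (fun z => |f z| ^ (4 * p)) := by
    apply Continuous.integrable_of_hasCompactSupport
    · exact (hf.continuous.abs).pow _
    · have : (fun z => |f z| ^ (4 * p)) = (fun t : ℝ => |t| ^ (4 * p)) ∘ f := rfl
      rw [this]
      apply hcs.comp_left
      have : 4 * p ≠ 0 := by omega
      simp [this]
  have hsub : ball (0 : ℂ) 1 ⊆ U := fun z hz =>
    hUb (ball_subset_closedBall (ball_subset_ball (by norm_num) hz))
  have hA : ∫ z in ball (0 : ℂ) 1, w z ^ p ≤ ∫ z in ball (0 : ℂ) 1, |f z| ^ (4 * p) := by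
    apply integral_mono_of_nonneg
    · filter_upwards [ae_restrict_mem measurableSet_ball] with z hz
      exact pow_nonneg (hw0 z (hsub hz)) _
    · exact hint.integrableOn
    · filter_upwards [ae_restrict_mem measurableSet_ball] with z hz
      have h3 := hwf z hz
      have h4 := hw0 z (hsub hz)
      calc w z ^ p ≤ (f z ^ 4) ^ p := pow_le_pow_left₀ h4 h3 p
        _ = |f z| ^ (4 * p) := by
          rw [pow_mul]
          congr 1
          rw [← abs_pow, abs_of_nonneg]
          positivity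
  have hB : ∫ z in ball (0 : ℂ) 1, |f z| ^ (4 * p) ≤ ∫ z, |f z| ^ (4 * p) := by
    apply setIntegral_le_integral hint
    filter_upwards with z
    positivity
  have hC' := hS f hf hf0
  have hD' : (∫ z, ‖fderiv ℝ f z‖ ^ 2) ^ (2 * p) ≤ (D * m ^ ((1 : ℝ) / 2)) ^ (2 * p) := by
    apply pow_le_pow_left₀ _ hen
    apply integral_nonneg
    intro z
    positivity
  have hm2 : (m ^ ((1 : ℝ) / 2)) ^ (2 * p) = m ^ p := by
    rw [← Real.rpow_natCast, ← Real.rpow_mul hm.le]
    rw [← Real.rpow_natCast]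
    congr 1
    push_cast
    ring
  calc ∫ z in ball (0 : ℂ) 1, w z ^ p ≤ ∫ z, |f z| ^ (4 * p) := hA.trans hB
    _ ≤ C * (∫ z, ‖fderiv ℝ f z‖ ^ 2) ^ (2 * p) := hC'
    _ ≤ C * (D * m ^ ((1 : ℝ) / 2)) ^ (2 * p) := by gcongr
    _ = C * D ^ (2 * p) * m ^ p := by rw [mul_pow, hm2]; ring

end Pool.Agent.Helper87.HS
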