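import Pool.Agent.Helper15.HS.GoalsC
import Pool.Agent.Helper95.HS.GoalsA
import Pool.Agent.Helper87.HS.CLG

/-! # HS, packet ENER: energy of the cut-offs -/

open Complex Metric Set Filter Topology MeasureTheory
open scoped ContDiff ComplexConjugate ComplexOrder Manifold Matrix

namespace Pool.Agent.Helper87.HS

universe u

open Pool.Agent.Helper95.Lin Pool.Agent.Helper16.Abund Pool.Agent.Helper92.Orb
  Pool.Agent.Helper10.SP Pool.Agent.Helper95.RK Pool.Agent.Helper57.HS Pool.Agent.Helper15.HS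

/-! ## The cut-off -/

theorem st_deriv_bdd : ∃ L : ℝ, 0 < L ∧ ∀ t, 0 ≤ deriv Real.smoothTransition t ∧
    deriv Real.smoothTransition t ≤ L := by
  have hc : Continuous (deriv Real.smoothTransition) :=
    (Real.smoothTransition.contDiff (n := 1)).continuous_deriv (by simp)
  obtain ⟨B, hB⟩ := (isCompact_Icc (a := (0 : ℝ)) (b := 1)).exists_bound_of_continuousOn
    hc.continuousOn
  refine ⟨max B 1, by positivity, fun t => ⟨Real.smoothTransition.monotone.deriv_nonneg, ?_⟩⟩
  by_cases h : t ∈ Icc (0 : ℝ) 1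
  · exact (le_abs_self _).trans ((hB t h).trans (le_max_left _ _))
  · have h0 : deriv Real.smoothTransition t = 0 := by
      rcases lt_or_ge t 0 with ht | ht
      · have : Real.smoothTransition =ᶠ[𝓝 t] fun _ => (0 : ℝ) := by
          filter_upwards [Iio_mem_nhds ht] with y hy
          exact Real.smoothTransition.zero_of_nonpos (le_of_lt hy)
        rw [this.deriv_eq]; simp
      · have ht1 : 1 < t := by
          by_contra hh
          exact h ⟨ht, not_lt.1 hh⟩
        have : Real.smoothTransition =ᶠ[𝓝 t] fun _ => (1 : ℝ) := by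
          filter_upwards [Ioi_mem_nhds ht1] with y hy
          exact Real.smoothTransition.one_of_one_le (le_of_lt hy)
        rw [this.deriv_eq]; simp
    rw [h0]; positivity

theorem thM_contDiff (M : ℝ) : ContDiff ℝ ∞ (thM M) := by
  unfold thM
  exact Real.smoothTransition.contDiff.comp (by fun_prop)

theorem thM_hasDeriv (M t : ℝ) :
    HasDerivAt (thM M) (deriv Real.smoothTransition (t / M + 2) / M) t := by
  have h1 : HasDerivAt Real.smoothTransition (deriv Real.smoothTransition (t / M + 2))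
      (t / M + 2) :=
    ((Real.smoothTransition.contDiff (n := 1)).differentiable (by simp) _).hasDerivAt
  have h2 : HasDerivAt (fun t : ℝ => t / M + 2) (1 / M) t :=
    ((hasDerivAt_id t).div_const M).add_const 2
  have h3 := h1.comp t h2
  have h4 : deriv Real.smoothTransition (t / M + 2) * (1 / M) =
      deriv Real.smoothTransition (t / M + 2) / M := by ring
  rw [h4] at h3
  exact h3

/-- An antiderivative of a multiple of the cut-off. -/
theorem thM_prim (M c : ℝ) : ∃ h : ℝ → ℝ, ContDiff ℝ ∞ h ∧ (∀ t, deriv h t = c * thM M t) ∧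
    ∀ t, deriv (deriv h) t = c * (deriv Real.smoothTransition (t / M + 2) / M) := by
  have hcont : Continuous (thM M) := (thM_contDiff M).continuous
  have hd : ∀ t, HasDerivAt (fun t => c * ∫ s in (0 : ℝ)..t, thM M s) (c * thM M t) t := by
    intro t
    exact (hcont.integral_hasStrictDerivAt 0 t).hasDerivAt.const_mul c
  have hdd : deriv (fun t => c * ∫ s in (0 : ℝ)..t, thM M s) = fun t => c * thM M t := by
    funext t; exact (hd t).deriv
  refine ⟨fun t => c * ∫ s in (0 : ℝ)..t, thM M s, ?_, fun t => (hd t).deriv, fun t => ?_⟩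
  · rw [contDiff_infty_iff_deriv, hdd]
    exact ⟨fun t => (hd t).differentiableAt, contDiff_const.mul (thM_contDiff M)⟩
  · rw [hdd]
    exact ((thM_hasDeriv M t).const_mul c).deriv

theorem thM_nonneg (M t : ℝ) : 0 ≤ thM M t := Real.smoothTransition.nonneg _

theorem thM_le (M t : ℝ) : thM M t ≤ 1 := Real.smoothTransition.le_one _

/-! ## Linear algebra -/

theorem posSemidef_factor {n : ℕ} {Y : Matrix (Fin n) (Fin n) ℂ} (hY : Y.PosSemidef) :
    ∃ B : Matrix (Fin n) (Fin n) ℂ, Y = Bᴴ * B := by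
  open scoped MatrixOrder in
  exact CStarAlgebra.nonneg_iff_eq_star_mul_self.mp hY.nonneg

theorem trace_inv_mul_nonneg {n : ℕ} {Q Y : Matrix (Fin n) (Fin n) ℂ} (hQ : Q.PosDef)
    (hY : Y.PosSemidef) : 0 ≤ (Matrix.trace (Q⁻¹ * Y)).re := by
  obtain ⟨B, hB⟩ := posSemidef_factor hQ.inv.posSemidef
  have h1 : Matrix.trace (Q⁻¹ * Y) = Matrix.trace (B * Y * Bᴴ) := by
    rw [hB, Matrix.mul_assoc, Matrix.trace_mul_comm Bᴴ, Matrix.mul_assoc]
  have h2 : (B * Y * Bᴴ).PosSemidef := hY.mul_mul_conjTranspose_same B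
  rw [h1]
  exact (Complex.le_def.1 h2.trace_nonneg).1

theorem dbp_nonneg {n : ℕ} {H : Cn n → Matrix (Fin n) (Fin n) ℂ} {s : Cn n → ℂ} {x : Cn n}
    (hH : (H x)⁻¹.PosDef) : 0 ≤ dbp H s s x := by
  have h := hH.posSemidef.dotProduct_mulVec_nonneg (fun j => conj (cdb j s x))
  convert h using 1
  simp only [dbp, dotProduct, Matrix.mulVec, Pi.star_apply, Finset.mul_sum]
  refine Finset.sum_congr rfl fun j _ => Finset.sum_congr rfl fun k _ => ?_
  have : star (conj (cdb j s x)) = cdb j s x := Complex.conj_conj _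
  rw [this]
  ring

/-! ## Real functions -/

theorem cdb_real (hW : S_WIRT) {n : ℕ} {W : Set (Cn n)} (hWo : IsOpen W) {u : Cn n → ℝ}
    (hu : ContDiffOn ℝ ∞ u W) {x : Cn n} (hx : x ∈ W) (l : Fin n) :
    cdb l (fun y => ((u y : ℝ) : ℂ)) x = conj (cd l (fun y => ((u y : ℝ) : ℂ)) x) := by
  have hf : ContDiffOn ℝ ∞ (fun y => ((u y : ℝ) : ℂ)) W :=
    Complex.ofRealCLM.contDiff.comp_contDiffOn hu
  have h := ((hW W hWo _ _ hf hf).2.2.2.1 l x hx).2
  simpa only [Complex.conj_ofReal] using h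

theorem integrable_cut {n : ℕ} {T : Set (Cn n)} {κ f : Cn n → ℝ}
    (hκ : TestF T κ) (hf : ContinuousOn f T) : IntegrableOn (fun x => κ x * f x) T := by
  have hK : IsCompact (tsupport κ) := hκ.2.1
  have h1 : IntegrableOn (fun x => κ x * f x) (tsupport κ) := by
    apply ContinuousOn.integrableOn_compact hK
    exact hκ.1.continuous.continuousOn.mul (hf.mono hκ.2.2)
  have h2 : Integrable (fun x => κ x * f x) := by
    refine (integrableOn_iff_integrable_of_support_subset ?_).1 h1
    intro x hx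
    apply subset_tsupport
    intro h0
    apply hx
    simp [h0]
  exact h2.integrableOn

theorem ener (h1 : Pool.Agent.Helper95.HS.S_CHN) (hW : S_WIRT) (hP : S_PUE.{u}) (hD : S_DETI.{u}) (hL : S_LMID.{u})
    (h2 : S_L2C.{u}) : S_ENER.{u} := by
  intro n T G _ R H hK K C hCT hC
  obtain ⟨κ, hκ⟩ := hP T R hK.et
  have hTo : IsOpen T := hK.et.isOpen
  obtain ⟨d1, d2, d3, d4, d5, d6⟩ := hD T R H hK
  set W : Cn n → ℝ := fun x => (H x).det.re with hWdef
  have hWt : Wt T R 0 W := by
    refine ⟨fun x hx => (d1 x hx).2.1, d2, fun U τ hU x hx => ?_⟩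
    have := (d5 U τ hU x hx).1
    simp only [hWdef, mul_zero, pow_zero, mul_one]
    exact this.symm
  obtain ⟨B₀, hB₀⟩ := h2 T R H hK κ hκ 0 W hWt C hCT hC
  obtain ⟨L, hL0, hLb⟩ := st_deriv_bdd
  set V : ℝ := ∫ x in T, κ x * W x with hV
  have hV0 : 0 ≤ V := by
    apply setIntegral_nonneg hTo.measurableSet
    intro x hx
    exact mul_nonneg (hκ.nonneg x) (hWt.pos x hx).le
  refine ⟨|B₀| * (L * (|K| * n) * V), fun u hu M hM => ?_⟩
  have hM0 : 0 < M := by linarith
  have hus : ContDiffOn ℝ ∞ u T := hu.inv.1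
  -- the section
  have hsec : Sec T R 0 (fun y => ((thM M (u y) : ℝ) : ℂ)) := by
    refine ⟨Complex.ofRealCLM.contDiff.comp_contDiffOn
      ((thM_contDiff M).comp_contDiffOn hus), ?_⟩
    rintro U τ ⟨hUo, hτ, γ, hγ⟩ x hx
    simp only [pow_zero, mul_one, hu.inv.2 γ x (τ x) (hγ x hx)]
  have hb := (hB₀ _ hsec).2
  -- the auxiliary function
  obtain ⟨h, hh, hh1, hh2⟩ := thM_prim M (L / M)
  have hhu : ContDiffOn ℝ ∞ (fun y => h (u y)) T := hh.comp_contDiffOn hus
  have hDI : DInv R (fun y => h (u y)) := by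
    rintro U τ ⟨hUo, hτ, γ, hγ⟩ x hx
    apply Filter.EventuallyEq.fderiv_eq
    filter_upwards [hUo.mem_nhds hx] with y hy
    simp only [hu.inv.2 γ y (τ y) (hγ y hy)]
  obtain ⟨l1, l2, l3, -⟩ := hL T R H hK κ hκ _ hhu hDI
  -- chain rule
  obtain ⟨-, c1⟩ := h1 T hTo u (thM M) univ hus isOpen_univ (thM_contDiff M).contDiffOn
    (mapsTo_univ _ _)
  obtain ⟨-, c2⟩ := h1 T hTo u h univ hus isOpen_univ hh.contDiffOn (mapsTo_univ _ _)
  have hthd : ∀ t, deriv (thM M) t = deriv Real.smoothTransition (t / M + 2) / M :=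
    fun t => (thM_hasDeriv M t).deriv
  have hdbp1 : ∀ x ∈ T, dbp H (fun y => ((thM M (u y) : ℝ) : ℂ))
      (fun y => ((thM M (u y) : ℝ) : ℂ)) x = ((deriv (thM M) (u x) ^ 2 : ℝ) : ℂ) *
        dbp H (fun y => ((u y : ℝ) : ℂ)) (fun y => ((u y : ℝ) : ℂ)) x := by
    intro x hx
    have hths : ContDiffOn ℝ ∞ (fun y => thM M (u y)) T := (thM_contDiff M).comp_contDiffOn hus
    have e1 : ∀ l, cdb l (fun y => ((thM M (u y) : ℝ) : ℂ)) x =
        ((deriv (thM M) (u x) : ℝ) : ℂ) * cdb l (fun y => ((u y : ℝ) : ℂ)) x := by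
      intro l
      rw [cdb_real hW hTo hths hx l, (c1 x hx).1 l, cdb_real hW hTo hus hx l, map_mul,
        Complex.conj_ofReal]
    simp only [dbp, e1, Finset.mul_sum, map_mul, Complex.conj_ofReal]
    refine Finset.sum_congr rfl fun j _ => Finset.sum_congr rfl fun k _ => ?_
    push_cast
    ring
  have htr : ∀ x ∈ T, trL H (fun y => h (u y)) x = ((deriv h (u x) : ℝ) : ℂ) * trL H u x +
      ((deriv (deriv h) (u x) : ℝ) : ℂ) *
        dbp H (fun y => ((u y : ℝ) : ℂ)) (fun y => ((u y : ℝ) : ℂ)) x := by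
    intro x hx
    simp only [trL, Matrix.trace, Matrix.diag_apply, Matrix.mul_apply, (c2 x hx).2, dbp,
      Finset.mul_sum, ← Finset.sum_add_distrib]
    refine Finset.sum_congr rfl fun k _ => Finset.sum_congr rfl fun j _ => ?_
    rw [cdb_real hW hTo hus hx k, cdb_real hW hTo hus hx j, Complex.conj_conj]
    ring
  -- lower bound of the trace
  have hlow : ∀ x ∈ T, - (|K| * n) ≤ (trL H u x).re := by
    intro x hx
    have hp : (H x).PosDef := hK.posDef x hx
    have e1 := trace_inv_mul_nonneg hp (hu.qp x hx)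
    have e2 : Matrix.trace ((H x)⁻¹ * (LM u x + (K : ℂ) • H x)) = trL H u x + (K : ℂ) * n := by
      have e3 : (H x)⁻¹ * H x = 1 := mul_eq_one_comm.1 (d1 x hx).2.2.2
      rw [Matrix.mul_add, Matrix.mul_smul, e3, Matrix.trace_add, Matrix.trace_smul,
        Matrix.trace_one, trL]
      simp
    rw [e2] at e1
    have e4 : (trL H u x + (K : ℂ) * n).re = (trL H u x).re + K * n := by simp
    rw [e4] at e1
    have e5 : K * (n : ℝ) ≤ |K| * n :=
      mul_le_mul_of_nonneg_right (le_abs_self K) (Nat.cast_nonneg n)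
    linarith
  -- pointwise inequality
  have hpt : ∀ x ∈ T, (dbp H (fun y => ((thM M (u y) : ℝ) : ℂ))
      (fun y => ((thM M (u y) : ℝ) : ℂ)) x).re ≤
      (trL H (fun y => h (u y)) x).re + L / M * (|K| * n) := by
    intro x hx
    rw [hdbp1 x hx, htr x hx, Complex.re_ofReal_mul, Complex.add_re, Complex.re_ofReal_mul,
      Complex.re_ofReal_mul, hh1, hh2, hthd]
    have b0 : 0 ≤ (dbp H (fun y => ((u y : ℝ) : ℂ)) (fun y => ((u y : ℝ) : ℂ)) x).re :=
      (Complex.le_def.1 (dbp_nonneg (d1 x hx).2.2.1)).1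
    set b := (dbp H (fun y => ((u y : ℝ) : ℂ)) (fun y => ((u y : ℝ) : ℂ)) x).re
    set a := (trL H u x).re
    set q := deriv Real.smoothTransition (u x / M + 2)
    have q0 : 0 ≤ q := (hLb _).1
    have q1 : q ≤ L := (hLb _).2
    have a0 := hlow x hx
    have t0 := thM_nonneg M (u x)
    have t1 := thM_le M (u x)
    have f1 : (q / M) ^ 2 ≤ L / M * (q / M) := by
      rw [sq]
      apply mul_le_mul_of_nonneg_right _ (by positivity)
      gcongr
    have f2 : (q / M) ^ 2 * b ≤ L / M * (q / M) * b := mul_le_mul_of_nonneg_right f1 b0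
    have f3 : - (|K| * n) ≤ thM M (u x) * a := by
      have g1 : thM M (u x) * (-(|K| * n)) ≤ thM M (u x) * a :=
        mul_le_mul_of_nonneg_left a0 t0
      have g2 : 0 ≤ |K| * (n : ℝ) := by positivity
      nlinarith
    have f4 : 0 ≤ L / M := by positivity
    have f5 : - (L / M * (|K| * n)) ≤ L / M * thM M (u x) * a := by
      have := mul_le_mul_of_nonneg_left f3 f4
      linarith [this]
    linarith
  -- the integral
  have hdip : (dipE T κ W H (fun y => ((thM M (u y) : ℝ) : ℂ))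
      (fun y => ((thM M (u y) : ℝ) : ℂ))).re = ∫ x in T, κ x * W x *
        (dbp H (fun y => ((thM M (u y) : ℝ) : ℂ)) (fun y => ((thM M (u y) : ℝ) : ℂ)) x).re := by
    have e1 : dipE T κ W H (fun y => ((thM M (u y) : ℝ) : ℂ))
      (fun y => ((thM M (u y) : ℝ) : ℂ)) = ∫ x in T, ((κ x * W x *
        (dbp H (fun y => ((thM M (u y) : ℝ) : ℂ)) (fun y => ((thM M (u y) : ℝ) : ℂ)) x).re : ℝ)
          : ℂ) := by
      unfold dipE
      apply setIntegral_congr_fun hTo.measurableSet
      intro x hx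
      have e2 := Complex.le_def.1 (dbp_nonneg (s := fun y => ((thM M (u y) : ℝ) : ℂ))
        (d1 x hx).2.2.1)
      have e3 : ((dbp H (fun y => ((thM M (u y) : ℝ) : ℂ))
        (fun y => ((thM M (u y) : ℝ) : ℂ)) x).re : ℂ) =
        dbp H (fun y => ((thM M (u y) : ℝ) : ℂ)) (fun y => ((thM M (u y) : ℝ) : ℂ)) x := by
        apply Complex.ext
        · simp
        · simpa using e2.2
      simp only
      rw [Complex.ofReal_mul (κ x * W x), e3]
    rw [e1, integral_complex_ofReal, Complex.ofReal_re]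
  have hint1 : IntegrableOn (fun x => κ x * (W x * (trL H (fun y => h (u y)) x).re)) T :=
    integrable_cut hκ.test (hWt.smooth.continuousOn.mul l2.1.continuousOn)
  have hint2 : IntegrableOn (fun x => κ x * W x) T :=
    integrable_cut hκ.test hWt.smooth.continuousOn
  have hdle : (dipE T κ W H (fun y => ((thM M (u y) : ℝ) : ℂ))
      (fun y => ((thM M (u y) : ℝ) : ℂ))).re ≤ L / M * (|K| * n) * V := by
    rw [hdip]
    have e1 : ∫ x in T, κ x * W x * (dbp H (fun y => ((thM M (u y) : ℝ) : ℂ))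
        (fun y => ((thM M (u y) : ℝ) : ℂ)) x).re ≤
        ∫ x in T, (κ x * (W x * (trL H (fun y => h (u y)) x).re) +
          L / M * (|K| * n) * (κ x * W x)) := by
      apply integral_mono_of_nonneg
      · filter_upwards [ae_restrict_mem hTo.measurableSet] with x hx
        exact mul_nonneg (mul_nonneg (hκ.nonneg x) (hWt.pos x hx).le)
          (Complex.le_def.1 (dbp_nonneg (d1 x hx).2.2.1)).1
      · exact hint1.add (hint2.const_mul _)
      · filter_upwards [ae_restrict_mem hTo.measurableSet] with x hx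
        have g1 := mul_le_mul_of_nonneg_left (hpt x hx)
          (mul_nonneg (hκ.nonneg x) (hWt.pos x hx).le)
        calc _ ≤ _ := g1
          _ = _ := by ring
    refine e1.trans ?_
    rw [integral_add hint1 (hint2.const_mul _), integral_const_mul]
    have e2 : ∫ x in T, κ x * (W x * (trL H (fun y => h (u y)) x).re) = 0 := by
      rw [← l3]
      apply setIntegral_congr_fun hTo.measurableSet
      intro x hx
      simp only [hWdef]
      ring
    rw [e2, zero_add]
  have hd0 : 0 ≤ (dipE T κ W H (fun y => ((thM M (u y) : ℝ) : ℂ))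
      (fun y => ((thM M (u y) : ℝ) : ℂ))).re := by
    rw [hdip]
    apply setIntegral_nonneg hTo.measurableSet
    intro x hx
    exact mul_nonneg (mul_nonneg (hκ.nonneg x) (hWt.pos x hx).le)
      (Complex.le_def.1 (dbp_nonneg (d1 x hx).2.2.1)).1
  calc ∫ x in C, ∑ l, ‖cdb l (fun y => ((thM M (u y) : ℝ) : ℂ)) x‖ ^ 2 ≤ B₀ * _ := hb
    _ ≤ |B₀| * (dipE T κ W H (fun y => ((thM M (u y) : ℝ) : ℂ))
      (fun y => ((thM M (u y) : ℝ) : ℂ))).re := mul_le_mul_of_nonneg_right (le_abs_self _) hd0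
    _ ≤ |B₀| * (L / M * (|K| * n) * V) := mul_le_mul_of_nonneg_left hdle (abs_nonneg _)
    _ = _ := by ring

end Pool.Agent.Helper87.HS
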