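import Pool.Agent.Helper15.HS.GoalsC
import Pool.Agent.Helper87.HS.CLG

/-! # HS, packet NULA: the curvature of the limit direction vanishes -/

open Complex Metric Set Filter Topology MeasureTheory
open scoped ContDiff ComplexConjugate ComplexOrder Manifold Matrix

namespace Pool.Agent.Helper87.HS

universe u

open Pool.Agent.Helper95.Lin Pool.Agent.Helper16.Abund Pool.Agent.Helper92.Orb
  Pool.Agent.Helper10.SP Pool.Agent.Helper95.RK Pool.Agent.Helper57.HS Pool.Agent.Helper15.HS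

theorem bdd_fin {n : ℕ} {ι : Type*} [Fintype ι] {C : Set (Cn n)} (hC : IsCompact C)
    (f : ι → Cn n → ℂ) (hf : ∀ i, ContinuousOn (f i) C) :
    ∃ M : ℝ, 0 ≤ M ∧ ∀ i, ∀ x ∈ C, ‖f i x‖ ≤ M := by
  have h1 : ∀ i, ∃ M : ℝ, ∀ x ∈ C, ‖f i x‖ ≤ M := fun i => hC.exists_bound_of_continuousOn (hf i)
  choose M hM using h1
  refine ⟨∑ i, |M i|, Finset.sum_nonneg fun i _ => abs_nonneg _, fun i x hx => ?_⟩
  exact ((hM i x hx).trans (le_abs_self _)).trans
    (Finset.single_le_sum (f := fun i => |M i|) (fun i _ => abs_nonneg _) (Finset.mem_univ i))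

theorem mul_entry_le {n : ℕ} {U V : Matrix (Fin n) (Fin n) ℂ} {N : ℝ} (hN : 0 ≤ N)
    (hU : ∀ i j, ‖U i j‖ ≤ N) (hV : ∀ i j, ‖V i j‖ ≤ N) (i j : Fin n) :
    ‖(U * V) i j‖ ≤ n * (N * N) := by
  rw [Matrix.mul_apply]
  calc ‖∑ b, U i b * V b j‖ ≤ ∑ b, ‖U i b * V b j‖ := norm_sum_le _ _
    _ ≤ ∑ _b : Fin n, N * N := by
      refine Finset.sum_le_sum fun b _ => ?_
      rw [norm_mul]
      exact mul_le_mul (hU i b) (hV b j) (norm_nonneg _) hN
    _ = _ := by simp

/-- The difference of the curvature terms. -/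
theorem crvP_diff {n : ℕ} (H : Cn n → Matrix (Fin n) (Fin n) ℂ) (x : Cn n)
    (U P B : Matrix (Fin n) (Fin n) ℂ) {N : ℝ} (hN : 0 ≤ N) (hU : ∀ i j, ‖U i j‖ ≤ N)
    (hP : ∀ i j, ‖P i j‖ ≤ N) (hB : ∀ i j, ‖B i j‖ ≤ N)
    (hcrv : ∀ i j k l, ‖crv H x i j k l‖ ≤ N) :
    ‖crvP H (U * P) (U * P) x - crvP H (U * B) (U * B) x‖ ≤
      (n : ℝ) ^ 4 * (2 * (n * (N * N)) * N * N) * ∑ a, ∑ c, ‖B a c - P a c‖ := by
  set D : ℝ := ∑ a, ∑ c, ‖B a c - P a c‖ with hD
  have hD0 : 0 ≤ D := Finset.sum_nonneg fun a _ => Finset.sum_nonneg fun c _ => norm_nonneg _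
  set X := U * P with hX
  set Y := U * B with hY
  have hXb := mul_entry_le hN hU hP
  have hYb := mul_entry_le hN hU hB
  have hXY : ∀ i j, ‖X i j - Y i j‖ ≤ N * D := by
    intro i j
    have h1 : X i j - Y i j = ∑ b, U i b * (P b j - B b j) := by
      rw [hX, hY, Matrix.mul_apply, Matrix.mul_apply, ← Finset.sum_sub_distrib]
      refine Finset.sum_congr rfl fun b _ => ?_
      ring
    rw [h1]
    calc ‖∑ b, U i b * (P b j - B b j)‖ ≤ ∑ b, ‖U i b * (P b j - B b j)‖ := norm_sum_le _ _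
      _ ≤ ∑ b, N * ∑ c, ‖B b c - P b c‖ := by
        refine Finset.sum_le_sum fun b _ => ?_
        rw [norm_mul]
        refine mul_le_mul (hU i b) ?_ (norm_nonneg _) hN
        rw [norm_sub_rev]
        exact Finset.single_le_sum (f := fun c => ‖B b c - P b c‖) (fun c _ => norm_nonneg _)
          (Finset.mem_univ j)
      _ = N * D := by rw [← Finset.mul_sum]
  have hterm : ∀ i j k l, ‖X j i * X l k * crv H x i j k l - Y j i * Y l k * crv H x i j k l‖ ≤
      2 * (n * (N * N)) * N * N * D := by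
    intro i j k l
    have h1 : X j i * X l k * crv H x i j k l - Y j i * Y l k * crv H x i j k l =
        ((X j i - Y j i) * X l k + Y j i * (X l k - Y l k)) * crv H x i j k l := by ring
    rw [h1, norm_mul]
    have h2 : ‖(X j i - Y j i) * X l k + Y j i * (X l k - Y l k)‖ ≤
        (N * D) * (n * (N * N)) + (n * (N * N)) * (N * D) := by
      refine (norm_add_le _ _).trans ?_
      rw [norm_mul, norm_mul]
      have := hXY j i
      have := hXY l k
      have := hXb l k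
      have := hYb j i
      gcongr
    calc _ ≤ ((N * D) * (n * (N * N)) + (n * (N * N)) * (N * D)) * N :=
          mul_le_mul h2 (hcrv i j k l) (norm_nonneg _) (by positivity)
      _ = _ := by ring
  have hs : crvP H X X x - crvP H Y Y x = ∑ i, ∑ j, ∑ k, ∑ l,
      (X j i * X l k * crv H x i j k l - Y j i * Y l k * crv H x i j k l) := by
    simp only [crvP, Finset.sum_sub_distrib]
  rw [hs]
  calc _ ≤ ∑ i, ∑ j, ∑ k, ∑ l,
        ‖X j i * X l k * crv H x i j k l - Y j i * Y l k * crv H x i j k l‖ := by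
        refine (norm_sum_le _ _).trans (Finset.sum_le_sum fun i _ => ?_)
        refine (norm_sum_le _ _).trans (Finset.sum_le_sum fun j _ => ?_)
        refine (norm_sum_le _ _).trans (Finset.sum_le_sum fun k _ => norm_sum_le _ _)
    _ ≤ ∑ _i : Fin n, ∑ _j : Fin n, ∑ _k : Fin n, ∑ _l : Fin n,
        2 * (n * (N * N)) * N * N * D :=
        Finset.sum_le_sum fun i _ => Finset.sum_le_sum fun j _ => Finset.sum_le_sum fun k _ =>
          Finset.sum_le_sum fun l _ => hterm i j k l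
    _ = _ := by simp; ring

theorem crvP_smul {n : ℕ} (H : Cn n → Matrix (Fin n) (Fin n) ℂ) (x : Cn n) (c : ℂ)
    (X : Matrix (Fin n) (Fin n) ℂ) : crvP H (c • X) (c • X) x = c ^ 2 * crvP H X X x := by
  simp only [crvP, Finset.mul_sum, Matrix.smul_apply, smul_eq_mul]
  refine Finset.sum_congr rfl fun i _ => Finset.sum_congr rfl fun j _ =>
    Finset.sum_congr rfl fun k _ => Finset.sum_congr rfl fun l _ => ?_
  ring

theorem nula (hD : S_DETI.{u}) (hI : S_INVK.{u}) : S_NULA.{u} := by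
  intro n T G _ R H hK hR k ε Q P hε hQ hBb hP hdb hconv hlow hKK x₀ hx₀
  have hTo : IsOpen T := hK.et.isOpen
  obtain ⟨d1, d2, d3, -⟩ := hD T R H hK
  have hHer : HerT T R H := ⟨hK.posDef, hK.smooth, hK.inv⟩
  have hHerQ : ∀ j, HerT T R (Q j) := fun j => ⟨(hQ j).ket.posDef, (hQ j).ket.smooth,
    (hQ j).ket.inv⟩
  obtain ⟨-, -, -, hcrv⟩ := hI T R hK.et H H hHer hHer
  have hPc : ∀ i j, ContinuousOn (fun x => P x i j) T := fun i j => (hP i j).continuousOn
  have hKc : ∀ i j, ContinuousOn (fun x => (H x)⁻¹ i j) T := fun i j => (d3 i j).continuousOn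
  set F : Cn n → ℝ := fun x => (crvP H ((H x)⁻¹ * P x) ((H x)⁻¹ * P x) x).re with hF
  have hXc : ∀ i j, ContinuousOn (fun x => ((H x)⁻¹ * P x) i j) T := by
    intro i j
    simp only [Matrix.mul_apply]
    exact continuousOn_finset_sum _ fun b _ => (hKc i b).mul (hPc b j)
  have hFc : ContinuousOn F T := by
    apply Complex.continuous_re.comp_continuousOn
    simp only [crvP]
    refine continuousOn_finset_sum _ fun i _ => continuousOn_finset_sum _ fun j _ =>
      continuousOn_finset_sum _ fun k _ => continuousOn_finset_sum _ fun l _ => ?_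
    exact ((hXc j i).mul (hXc l k)).mul (hcrv i j k l)
  by_contra hne
  have hne' : F x₀ ≠ 0 := hne
  set c₁ : ℝ := |F x₀| / 2 with hc₁
  have hc₁0 : 0 < c₁ := by have := abs_pos.2 hne'; positivity
  -- a small closed ball
  have hcont : ContinuousAt F x₀ := hFc.continuousAt (hTo.mem_nhds hx₀)
  have hev : ∀ᶠ x in 𝓝 x₀, x ∈ T ∧ c₁ ≤ |F x| := by
    have h1 : ∀ᶠ x in 𝓝 x₀, c₁ < |F x| := by
      have h2 : ContinuousAt (fun x => |F x|) x₀ := hcont.abs
      apply h2.eventually (lt_mem_nhds _)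
      have := abs_pos.2 hne'
      simp only [hc₁]
      linarith
    filter_upwards [hTo.mem_nhds hx₀, h1] with x h2 h3 using ⟨h2, h3.le⟩
  obtain ⟨r, hr, hball⟩ := Metric.nhds_basis_closedBall.mem_iff.1 hev
  set C : Set (Cn n) := closedBall x₀ r with hC
  have hCT : C ⊆ T := fun x hx => (hball hx).1
  have hCc : IsCompact C := isCompact_closedBall x₀ r
  have hCm : MeasurableSet C := hCc.isClosed.measurableSet
  have hCv : 0 < volume C := measure_closedBall_pos volume x₀ hr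
  obtain ⟨c₀, hc₀, hlo⟩ := hlow C hCT hCc hCv
  -- bounds
  obtain ⟨B₀, hB₀⟩ := hBb C hCT hCc
  obtain ⟨N₁, hN₁, hN₁b⟩ := bdd_fin hCc (fun (p : Fin n × Fin n) x => (H x)⁻¹ p.1 p.2)
    (fun p => (hKc p.1 p.2).mono hCT)
  obtain ⟨N₂, hN₂, hN₂b⟩ := bdd_fin hCc (fun (p : Fin n × Fin n) x => P x p.1 p.2)
    (fun p => (hPc p.1 p.2).mono hCT)
  obtain ⟨N₃, hN₃, hN₃b⟩ := bdd_fin hCc (fun (p : Fin n × Fin n × Fin n × Fin n) x =>
    crv H x p.1 p.2.1 p.2.2.1 p.2.2.2) (fun p => (hcrv p.1 p.2.1 p.2.2.1 p.2.2.2).mono hCT)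
  set N : ℝ := |B₀| + N₁ + N₂ + N₃ with hN
  have hB0' := abs_nonneg B₀
  have hN0 : 0 ≤ N := by positivity
  set K' : ℝ := (n : ℝ) ^ 4 * (2 * (n * (N * N)) * N * N) with hK'
  have hK'0 : 0 ≤ K' := by positivity
  -- pointwise estimate
  have hpt : ∀ j, ∀ x ∈ C, c₁ ≤ ε j * (- KKt H (Q j) x) +
      K' * ∑ a, ∑ c, ‖Bep (ε j) H (Q j) x a c - P x a c‖ := by
    intro j x hx
    have hxT := hCT hx
    have hqp : (Q j x).PosDef := (hQ j).ket.posDef x hxT
    have e1 : (H x)⁻¹ * Bep (ε j) H (Q j) x = (ε j : ℂ) • (Q j x)⁻¹ := by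
      have e2 : (H x)⁻¹ * H x = 1 := mul_eq_one_comm.1 (d1 x hxT).2.2.2
      rw [Bep, Matrix.mul_smul, ← Matrix.mul_assoc, e2, Matrix.one_mul]
    have e3 : (crvP H ((H x)⁻¹ * Bep (ε j) H (Q j) x) ((H x)⁻¹ * Bep (ε j) H (Q j) x) x).re =
        ε j ^ 2 * KKt H (Q j) x := by
      rw [e1, crvP_smul, KKt, ← Complex.ofReal_pow, Complex.re_ofReal_mul]
    have e4 : KKt H (Q j) x ≤ 0 := hR x hxT _ hqp.inv.posSemidef
    have e5 := crvP_diff H x (H x)⁻¹ (P x) (Bep (ε j) H (Q j) x) hN0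
      (fun a c => (hN₁b (a, c) x hx).trans (by rw [hN]; linarith))
      (fun a c => (hN₂b (a, c) x hx).trans (by rw [hN]; linarith))
      (fun a c => (hB₀ j x hx a c).trans (by
        have := le_abs_self B₀
        rw [hN]; linarith))
      (fun a b c d => (hN₃b (a, b, c, d) x hx).trans (by rw [hN]; linarith))
    have e6 := (Complex.abs_re_le_norm _).trans e5
    rw [Complex.sub_re, e3] at e6
    have e7 : c₁ ≤ |F x| := (hball hx).2
    have e8 : |F x| ≤ |F x - ε j ^ 2 * KKt H (Q j) x| + |ε j ^ 2 * KKt H (Q j) x| := by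
      have := abs_add_le (F x - ε j ^ 2 * KKt H (Q j) x) (ε j ^ 2 * KKt H (Q j) x)
      simpa using this
    have e9 : |ε j ^ 2 * KKt H (Q j) x| ≤ ε j * (- KKt H (Q j) x) := by
      rw [abs_mul, abs_of_nonpos e4, abs_of_nonneg (by positivity)]
      apply mul_le_mul_of_nonneg_right _ (by linarith)
      nlinarith [(hε j).1, (hε j).2]
    linarith
  -- continuity
  have hdc : ∀ j, ContinuousOn (fun x => Helper57.HS.dens k (ε j) H (Q j) x) T := by
    intro j
    obtain ⟨q1, q2, -⟩ := hD T R (Q j) (hQ j).ket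
    unfold Helper57.HS.dens
    apply q2.continuousOn.div (continuousOn_const.mul d2.continuousOn)
    intro x hx
    exact (mul_pos (pow_pos (hε j).1 _) (d1 x hx).2.1).ne'
  have hd0 : ∀ j, ∀ x ∈ T, 0 ≤ Helper57.HS.dens k (ε j) H (Q j) x := by
    intro j x hx
    obtain ⟨q1, -⟩ := hD T R (Q j) (hQ j).ket
    unfold Helper57.HS.dens
    have h1 := (d1 x hx).2.1
    have h2 := (hε j).1
    have h3 := (q1 x hx).2.1
    positivity
  have hBc : ∀ j a c, ContinuousOn (fun x => Bep (ε j) H (Q j) x a c) T := by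
    intro j a c
    obtain ⟨-, -, q3, -⟩ := hD T R (Q j) (hQ j).ket
    simp only [Bep, Matrix.smul_apply, Matrix.mul_apply, smul_eq_mul]
    exact continuousOn_const.mul (continuousOn_finset_sum _ fun b _ =>
      (hK.smooth a b).continuousOn.mul (q3 b c).continuousOn)
  have hKc' : ∀ j, ContinuousOn (KKt H (Q j)) T := fun j =>
    (hI T R hK.et H (Q j) hHer (hHerQ j)).1
  have hi1 : ∀ j, IntegrableOn (fun x => Helper57.HS.dens k (ε j) H (Q j) x *
      (ε j * (- KKt H (Q j) x))) C := fun j =>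
    (((hdc j).mul (continuousOn_const.mul (hKc' j).neg)).mono hCT).integrableOn_compact hCc
  have hi2 : ∀ j a c, IntegrableOn (fun x => Helper57.HS.dens k (ε j) H (Q j) x *
      ‖Bep (ε j) H (Q j) x a c - P x a c‖) C := fun j a c =>
    (((hdc j).mul ((hBc j a c).sub (hPc a c)).norm).mono hCT).integrableOn_compact hCc
  -- the integral estimate
  have hi3 : ∀ j, IntegrableOn (fun x => K' * ∑ a, ∑ c, Helper57.HS.dens k (ε j) H (Q j) x *
      ‖Bep (ε j) H (Q j) x a c - P x a c‖) C := fun j =>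
    (integrable_finset_sum _ fun a _ => integrable_finset_sum _ fun c _ =>
      hi2 j a c).const_mul K'
  have hint : ∀ j, c₁ * c₀ ≤ (∫ x in C, Helper57.HS.dens k (ε j) H (Q j) x *
      (ε j * (- KKt H (Q j) x))) + K' * ∑ a, ∑ c, ∫ x in C,
        Helper57.HS.dens k (ε j) H (Q j) x * ‖Bep (ε j) H (Q j) x a c - P x a c‖ := by
    intro j
    have s1 : c₁ * c₀ ≤ ∫ x in C, c₁ * Helper57.HS.dens k (ε j) H (Q j) x := by
      rw [integral_const_mul]
      exact mul_le_mul_of_nonneg_left (hlo j) hc₁0.le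
    have s2 : ∫ x in C, c₁ * Helper57.HS.dens k (ε j) H (Q j) x ≤
        ∫ x in C, (Helper57.HS.dens k (ε j) H (Q j) x * (ε j * (- KKt H (Q j) x)) +
          K' * ∑ a, ∑ c, Helper57.HS.dens k (ε j) H (Q j) x *
            ‖Bep (ε j) H (Q j) x a c - P x a c‖) := by
      apply integral_mono_of_nonneg
      · filter_upwards [ae_restrict_mem hCm] with x hx
        exact mul_nonneg hc₁0.le (hd0 j x (hCT hx))
      · exact (hi1 j).add (hi3 j)
      · filter_upwards [ae_restrict_mem hCm] with x hx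
        have h1 := mul_le_mul_of_nonneg_left (hpt j x hx) (hd0 j x (hCT hx))
        have h2 : ∑ a, ∑ c, Helper57.HS.dens k (ε j) H (Q j) x *
            ‖Bep (ε j) H (Q j) x a c - P x a c‖ = Helper57.HS.dens k (ε j) H (Q j) x *
              ∑ a, ∑ c, ‖Bep (ε j) H (Q j) x a c - P x a c‖ := by
          simp only [Finset.mul_sum]
        rw [h2]
        calc c₁ * Helper57.HS.dens k (ε j) H (Q j) x =
            Helper57.HS.dens k (ε j) H (Q j) x * c₁ := mul_comm _ _
          _ ≤ _ := h1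
          _ = _ := by ring
    refine s1.trans (s2.trans (le_of_eq ?_))
    rw [integral_add (hi1 j) (hi3 j), integral_const_mul]
    congr 2
    rw [integral_finset_sum _ fun a _ => integrable_finset_sum _ fun c _ => hi2 j a c]
    refine Finset.sum_congr rfl fun a _ => ?_
    rw [integral_finset_sum _ fun c _ => hi2 j a c]
  have hlim : Tendsto (fun j => (∫ x in C, Helper57.HS.dens k (ε j) H (Q j) x *
      (ε j * (- KKt H (Q j) x))) + K' * ∑ a, ∑ c, ∫ x in C,
        Helper57.HS.dens k (ε j) H (Q j) x * ‖Bep (ε j) H (Q j) x a c - P x a c‖) atTop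
      (𝓝 (0 + K' * ∑ _a : Fin n, ∑ _c : Fin n, (0 : ℝ))) := by
    apply (hKK C hCT hCc).add
    apply Tendsto.const_mul
    exact tendsto_finset_sum _ fun a _ => tendsto_finset_sum _ fun c _ => hconv C hCT hCc a c
  have hfin := ge_of_tendsto' hlim hint
  simp only [Finset.sum_const_zero, mul_zero, add_zero] at hfin
  have := mul_pos hc₁0 hc₀
  linarith

end Pool.Agent.Helper87.HS
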